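import Pool.Agent.W743.HP.Stm

set_option autoImplicit false

namespace Pool.Agent.W636.HP

open Pool.Agent.W743.HP

theorem hockey (A j : ℕ) :
    ∑ i ∈ Finset.range (j + 1), (A + i).choose i = (A + j + 1).choose j := by
  induction j with
  | zero => simp
  | succ j ih =>
    rw [Finset.sum_range_succ, ih, show A + (j + 1) + 1 = (A + j + 1) + 1 by ring,
      Nat.choose_succ_succ]
    rfl

theorem cf_D (N : ℕ) (α : ℝ) (j : ℕ) :
    (cf N α j).2.2 = -α * ∑ i ∈ Finset.range j, c N α i := by
  induction j with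
  | zero => simp [cf]
  | succ j ih =>
    rw [Finset.sum_range_succ, mul_add, ← ih]
    show (cf N α j).2.2 - α * (cf N α j).1 = (cf N α j).2.2 + -α * (cf N α j).1
    ring

theorem cf_d_succ (N : ℕ) (α : ℝ) (j : ℕ) :
    (cf N α (j + 1)).2.1 = (cf N α j).2.1 + (cf N α (j + 1)).2.2 := rfl

theorem cf_d (N : ℕ) (α : ℝ) (j : ℕ) :
    (cf N α j).2.1 = -α * ∑ i ∈ Finset.range j, ((j : ℝ) - i) * c N α i := by
  induction j with
  | zero => simp [cf]
  | succ j ih =>
    rw [cf_d_succ, ih, cf_D, ← mul_add, Finset.sum_range_succ, Finset.sum_range_succ]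
    congr 1
    push_cast
    have : ∑ i ∈ Finset.range j, ((j : ℝ) + 1 - i) * c N α i =
        ∑ i ∈ Finset.range j, ((j : ℝ) - i) * c N α i + ∑ i ∈ Finset.range j, c N α i := by
      rw [← Finset.sum_add_distrib]
      exact Finset.sum_congr rfl fun i _ => by ring
    rw [this]
    ring

theorem c_succ (N : ℕ) (α : ℝ) (j : ℕ) :
    ((j : ℝ) + 1) * (j + 1 + N) * c N α (j + 1) = (cf N α (j + 1)).2.1 := by
  have h : c N α (j + 1) = (cf N α (j + 1)).2.1 / ((j + 1) * (j + 1 + N)) := rfl
  rw [h]
  have : ((j : ℝ) + 1) * (j + 1 + N) ≠ 0 := by positivity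
  field_simp

theorem c_mul (N : ℕ) (α : ℝ) (j : ℕ) :
    (j : ℝ) * (j + N) * c N α j = (cf N α j).2.1 := by
  cases j with
  | zero => simp [cf]
  | succ j =>
    rw [← c_succ]
    push_cast
    ring

theorem bound (N : ℕ) (α : ℝ) (A : ℕ) (h0 : 0 ≤ α) (hA : α ≤ A) (j : ℕ) :
    |c N α j| ≤ (A + j).choose j := by
  induction j using Nat.strong_induction_on with
  | _ j ih =>
    cases j with
    | zero => simp [c, cf]
    | succ j =>
      have h1 : ((j : ℝ) + 1) * (j + 1 + N) * c N α (j + 1) =
          -α * ∑ i ∈ Finset.range (j + 1), ((j : ℝ) + 1 - i) * c N α i := by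
        rw [c_succ, cf_d]
        push_cast
        rfl
      have h2 : |∑ i ∈ Finset.range (j + 1), ((j : ℝ) + 1 - i) * c N α i| ≤
          ((j : ℝ) + 1) * ((A + j + 1).choose j : ℝ) := by
        refine (Finset.abs_sum_le_sum_abs _ _).trans ?_
        rw [← hockey, Nat.cast_sum, Finset.mul_sum]
        refine Finset.sum_le_sum fun i hi => ?_
        rw [Finset.mem_range] at hi
        have hi' : (i : ℝ) ≤ j := by exact_mod_cast Nat.lt_succ_iff.1 hi
        rw [abs_mul, abs_of_nonneg (by linarith)]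
        have hi0 : (0 : ℝ) ≤ i := Nat.cast_nonneg i
        exact mul_le_mul (by linarith) (ih i hi) (abs_nonneg _) (by positivity)
      have h3 : ((j : ℝ) + 1) * (j + 1 + N) * |c N α (j + 1)| ≤
          A * (((j : ℝ) + 1) * ((A + j + 1).choose j : ℝ)) := by
        have h4 : |((j : ℝ) + 1) * (j + 1 + N) * c N α (j + 1)| =
            ((j : ℝ) + 1) * (j + 1 + N) * |c N α (j + 1)| := by
          rw [abs_mul, abs_of_nonneg (by positivity)]
        rw [← h4, h1, abs_mul, abs_neg, abs_of_nonneg h0]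
        exact mul_le_mul hA h2 (abs_nonneg _) (by positivity)
      have h5 : (((A + j + 1).choose (j + 1) : ℕ) : ℝ) * (j + 1) =
          ((A + j + 1).choose j : ℝ) * (A + 1) := by
        have := Nat.choose_succ_right_eq (A + j + 1) j
        rw [show A + j + 1 - j = A + 1 by omega] at this
        exact_mod_cast this
      have hj : (0 : ℝ) < (j : ℝ) + 1 := by positivity
      have hc : (0 : ℝ) ≤ ((A + j + 1).choose j : ℝ) := by positivity
      -- cancel `j + 1`
      have h6 : ((j : ℝ) + 1 + N) * |c N α (j + 1)| ≤ A * ((A + j + 1).choose j : ℝ) := by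
        have : ((j : ℝ) + 1) * (((j : ℝ) + 1 + N) * |c N α (j + 1)|) ≤
            ((j : ℝ) + 1) * (A * ((A + j + 1).choose j : ℝ)) := by
          calc _ = ((j : ℝ) + 1) * (j + 1 + N) * |c N α (j + 1)| := by ring
            _ ≤ _ := h3
            _ = _ := by ring
        exact le_of_mul_le_mul_left this hj
      have h7 : ((j : ℝ) + 1) * |c N α (j + 1)| ≤
          ((j : ℝ) + 1) * ((A + j + 1).choose (j + 1) : ℝ) := by
        calc ((j : ℝ) + 1) * |c N α (j + 1)| ≤ ((j : ℝ) + 1 + N) * |c N α (j + 1)| := by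
              have hN : (0 : ℝ) ≤ N := Nat.cast_nonneg N
              exact mul_le_mul_of_nonneg_right (by linarith) (abs_nonneg _)
          _ ≤ A * ((A + j + 1).choose j : ℝ) := h6
          _ ≤ ((A + j + 1).choose j : ℝ) * (A + 1) := by nlinarith
          _ = _ := by rw [← h5]; ring
      have := le_of_mul_le_mul_left h7 hj
      rw [show A + (j + 1) = A + j + 1 by ring]
      exact this

theorem bd : S_BD := by
  refine ⟨fun N α A h0 hA j => ⟨bound N α A h0 hA j, ?_⟩, fun N α j => ?_⟩
  · rw [c_succ, cf_d]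
    push_cast
    rfl
  · rw [c_succ, c_mul]
    cases j with
    | zero =>
      simp [sh, cf, c]
    | succ j =>
      have h1 : sh (fun i => (i : ℝ) * (i + N) * c N α i) (j + 1) = (cf N α j).2.1 := by
        rw [← c_mul]
        simp [sh]
      rw [h1, cf_d_succ N α (j + 1), cf_d_succ N α j]
      have h2 : (cf N α (j + 1 + 1)).2.2 = (cf N α (j + 1)).2.2 - α * c N α (j + 1) := rfl
      rw [h2]
      ring

end Pool.Agent.W636.HP
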